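import Pool.Agent.helper94.AP.SpecB

set_option autoImplicit false

namespace Pool.Agent.AP

open Finset Pool.Agent.helper3.FT

theorem BLA_sqrt (n : ℕ) : ∑ d ∈ Icc 1 n, 1 / √(d : ℝ) ≤ 2 * √(n : ℝ) := by
  induction n with
  | zero => simp
  | succ n ih =>
    rw [Finset.sum_Icc_succ_top (by omega)]
    have h1 : 0 < √((n + 1 : ℕ) : ℝ) := Real.sqrt_pos.2 (by positivity)
    have h3 : √((n + 1 : ℕ) : ℝ) ^ 2 = n + 1 := by
      rw [Real.sq_sqrt (by positivity)]
      push_cast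
      ring
    have h4 : √(n : ℝ) ^ 2 = n := Real.sq_sqrt (by positivity)
    have h5 : 1 / √((n + 1 : ℕ) : ℝ) ≤ 2 * √((n + 1 : ℕ) : ℝ) - 2 * √(n : ℝ) := by
      rw [div_le_iff₀ h1]
      nlinarith [sq_nonneg (√((n + 1 : ℕ) : ℝ) - √(n : ℝ))]
    linarith

theorem BLA_tau (K : ℕ) : (∑ k ∈ Ioc 0 K, (k.divisors.card : ℝ)) ≤ K * (1 + Real.log K) := by
  have h1 : ∀ k ∈ Ioc 0 K, (k.divisors.card : ℝ) =
      ∑ j ∈ Ioc 0 K, if j ∣ k then (1 : ℝ) else 0 := by
    intro k hk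
    rw [Finset.mem_Ioc] at hk
    have hs : k.divisors = (Ioc 0 K).filter (fun j => j ∣ k) := by
      ext j
      rw [Nat.mem_divisors, Finset.mem_filter, Finset.mem_Ioc]
      constructor
      · intro h
        exact ⟨⟨Nat.pos_of_dvd_of_pos h.1 hk.1, (Nat.le_of_dvd hk.1 h.1).trans hk.2⟩, h.1⟩
      · intro h
        exact ⟨h.2, by omega⟩
    rw [hs, ← Finset.sum_filter, Finset.sum_const, nsmul_eq_mul, mul_one]
  rw [Finset.sum_congr rfl h1, Finset.sum_comm]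
  have h2 : ∀ j ∈ Ioc 0 K, ∑ k ∈ Ioc 0 K, (if j ∣ k then (1 : ℝ) else 0) ≤ K * (j : ℝ)⁻¹ := by
    intro j hj
    rw [← Finset.sum_filter, Finset.sum_const, nsmul_eq_mul, mul_one,
      Nat.Ioc_filter_dvd_card_eq_div, ← div_eq_mul_inv]
    exact Nat.cast_div_le
  refine (Finset.sum_le_sum h2).trans ?_
  rw [← Finset.mul_sum]
  apply mul_le_mul_of_nonneg_left _ (Nat.cast_nonneg _)
  have h3 := harmonic_le_one_add_log K
  rw [harmonic_eq_sum_Icc] at h3
  push_cast at h3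
  exact h3

theorem BLA_dvd (w k : ℕ) : rad w k ∣ k :=
  (Finset.prod_dvd_prod_of_subset _ _ _ (Finset.filter_subset _ _)).trans
    (Nat.prod_primeFactors_dvd k)

theorem BLA (hPVC : PVC_stmt) : BLA_stmt := by
  intro w e₀ hw he hq m a b Z₁ Z₂ V₁ V₂ Δ hm hΔ V hV hV₂
  have hlV : 0 ≤ Real.log V := Real.log_nonneg hV
  have hlD : 0 ≤ Real.log Δ := Real.log_nonneg (by exact_mod_cast hΔ)
  unfold bs
  rw [Int.cast_sum]
  refine (Finset.abs_sum_le_sum_abs _ _).trans ?_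
  have hd : ∀ d ∈ (Icc 1 Δ).filter (fun d => 2 ≤ d ∧ Squarefree d ∧ Nat.Coprime d e₀),
      |((∑ k ∈ (Ioc (V₁ / d) (V₂ / d)).filter (fun k => d * k ≡ b [MOD e₀]),
      ∑ z ∈ (Ioc Z₁ Z₂).filter (fun z => z ≡ a [MOD e₀]),
        if Nat.Coprime (rad w k) (m * z) then jacobiSym ((m * z : ℕ) : ℤ) d else 0 : ℤ) : ℝ)| ≤
      V * (1 + Real.log V) * (1 + Real.log Δ) * (1 / √(d : ℝ)) := by
    intro d hd
    obtain ⟨hd0, hd2, hd3, hd4⟩ := Finset.mem_filter.1 hd
    have hdΔ : d ≤ Δ := (Finset.mem_Icc.1 hd0).2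
    have hodd : Odd d := by
      rcases Nat.even_or_odd d with h | h
      · exfalso
        have h2e : 2 ∣ e₀ := (hq 2 Nat.prime_two).2 hw
        have h3 := Nat.dvd_gcd h.two_dvd h2e
        rw [Nat.Coprime] at hd4
        rw [hd4] at h3
        omega
      · exact h
    have hdR : (2 : ℝ) ≤ d := by exact_mod_cast hd2
    have hd0' : (0 : ℝ) < d := by linarith
    have hld : 0 ≤ Real.log d := Real.log_nonneg (by linarith)
    rw [Int.cast_sum]
    refine (Finset.abs_sum_le_sum_abs _ _).trans ?_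
    have hk : ∀ k ∈ (Ioc (V₁ / d) (V₂ / d)).filter (fun k => d * k ≡ b [MOD e₀]),
        |((∑ z ∈ (Ioc Z₁ Z₂).filter (fun z => z ≡ a [MOD e₀]),
          if Nat.Coprime (rad w k) (m * z) then jacobiSym ((m * z : ℕ) : ℤ) d else 0 : ℤ) : ℝ)| ≤
        (k.divisors.card : ℝ) * (√(d : ℝ) * (1 + Real.log d)) := by
      intro k hk
      have hk0 : k ≠ 0 := by
        have h7 := (Finset.mem_Ioc.1 (Finset.mem_filter.1 hk).1).1
        exact (lt_of_le_of_lt (Nat.zero_le _) h7).ne' 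
      have hrp : 1 ≤ rad w k := Nat.pos_of_dvd_of_pos (BLA_dvd w k) (by omega)
      have hrc : Nat.Coprime (rad w k) e₀ := by
        unfold rad
        apply Nat.Coprime.prod_left
        intro q hqk
        obtain ⟨hqk1, hqk2⟩ := Finset.mem_filter.1 hqk
        have hqp := Nat.prime_of_mem_primeFactors hqk1
        rw [hqp.coprime_iff_not_dvd, hq q hqp]
        omega
      have h := hPVC d e₀ (rad w k) m hodd hd3 hd2 he hrp hm hd4 hrc a Z₁ Z₂
      refine h.trans (mul_le_mul_of_nonneg_right ?_ (by positivity))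
      exact_mod_cast Finset.card_le_card (Nat.divisors_subset_of_dvd hk0 (BLA_dvd w k))
    refine (Finset.sum_le_sum hk).trans ?_
    rw [← Finset.sum_mul]
    have h3 : ∑ k ∈ (Ioc (V₁ / d) (V₂ / d)).filter (fun k => d * k ≡ b [MOD e₀]),
        (k.divisors.card : ℝ) ≤ ∑ k ∈ Ioc 0 (V₂ / d), (k.divisors.card : ℝ) := by
      apply Finset.sum_le_sum_of_subset_of_nonneg
      · intro k hk
        have h7 := Finset.mem_Ioc.1 (Finset.mem_filter.1 hk).1
        rw [Finset.mem_Ioc]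
        exact ⟨lt_of_le_of_lt (Nat.zero_le _) h7.1, h7.2⟩
      · intro _ _ _
        positivity
    have hK1 : ((V₂ / d : ℕ) : ℝ) ≤ V / d :=
      Nat.cast_div_le.trans (div_le_div_of_nonneg_right hV₂ hd0'.le)
    have hK2 : ((V₂ / d : ℕ) : ℝ) ≤ V := by
      have : ((V₂ / d : ℕ) : ℝ) ≤ V₂ := by exact_mod_cast Nat.div_le_self V₂ d
      linarith
    have hlK : Real.log ((V₂ / d : ℕ) : ℝ) ≤ Real.log V := by
      rcases Nat.eq_zero_or_pos (V₂ / d) with h | h
      · rw [h, Nat.cast_zero, Real.log_zero]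
        exact hlV
      · exact Real.log_le_log (by exact_mod_cast h) hK2
    have hlK0 : 0 ≤ Real.log ((V₂ / d : ℕ) : ℝ) := Real.log_natCast_nonneg _
    have h4 : ∑ k ∈ (Ioc (V₁ / d) (V₂ / d)).filter (fun k => d * k ≡ b [MOD e₀]),
        (k.divisors.card : ℝ) ≤ V / d * (1 + Real.log V) :=
      (h3.trans (BLA_tau _)).trans
        (mul_le_mul hK1 (by linarith) (by linarith) (by positivity))
    have hldD : Real.log d ≤ Real.log Δ := Real.log_le_log hd0' (by exact_mod_cast hdΔ)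
    have hsq : √(d : ℝ) * √(d : ℝ) = d := Real.mul_self_sqrt hd0'.le
    have hsq0 : 0 < √(d : ℝ) := Real.sqrt_pos.2 hd0'
    have hss : √(d : ℝ) / d = 1 / √(d : ℝ) := by
      rw [div_eq_div_iff hd0'.ne' hsq0.ne', one_mul, hsq]
    calc (∑ k ∈ (Ioc (V₁ / d) (V₂ / d)).filter (fun k => d * k ≡ b [MOD e₀]),
        (k.divisors.card : ℝ)) * (√(d : ℝ) * (1 + Real.log d))
        ≤ V / d * (1 + Real.log V) * (√(d : ℝ) * (1 + Real.log Δ)) := by
          apply mul_le_mul h4 _ (by positivity) (by positivity)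
          exact mul_le_mul_of_nonneg_left (by linarith) hsq0.le
      _ = V * (1 + Real.log V) * (1 + Real.log Δ) * (√(d : ℝ) / d) := by ring
      _ = _ := by rw [hss]
  refine (Finset.sum_le_sum hd).trans ?_
  rw [← Finset.mul_sum]
  have h1 : ∑ d ∈ (Icc 1 Δ).filter (fun d => 2 ≤ d ∧ Squarefree d ∧ Nat.Coprime d e₀),
      1 / √(d : ℝ) ≤ ∑ d ∈ Icc 1 Δ, 1 / √(d : ℝ) :=
    Finset.sum_le_sum_of_subset_of_nonneg (Finset.filter_subset _ _) (fun _ _ _ => by positivity)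
  have h2 := h1.trans (BLA_sqrt Δ)
  calc _ ≤ V * (1 + Real.log V) * (1 + Real.log Δ) * (2 * √(Δ : ℝ)) :=
        mul_le_mul_of_nonneg_left h2 (by positivity)
    _ = _ := by ring

end Pool.Agent.AP
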