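import Pool.Agent.helper95.AP.SpecL

set_option autoImplicit false

namespace Pool.Agent.APL

open Finset NumberField Pool.Agent.helper3.FT Pool.Agent.helper47.RA Pool.Agent.T5 Pool.Agent.AP

theorem LDV_mem (s t : Finset ℕ) (hs : ∀ q ∈ s, q.Prime) (ht : t ⊆ s) (q : ℕ) (hq : q ∈ s) :
    q ∣ ∏ x ∈ t, x ↔ q ∈ t := by
  constructor
  · intro h
    obtain ⟨x, hx, hqx⟩ := (Prime.dvd_finsetProd_iff (hs q hq).prime _).1 h
    rw [(Nat.prime_dvd_prime_iff_eq (hs q hq) (hs x (ht hx))).1 hqx]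
    exact hx
  · intro h
    exact Finset.dvd_prod_of_mem _ h

theorem LDV_surj (s : Finset ℕ) (hs : ∀ q ∈ s, q.Prime) (r : ℕ) (hr : r ∣ ∏ x ∈ s, x) :
    ∏ x ∈ s.filter (fun q => q ∣ r), x = r := by
  apply Nat.dvd_antisymm
  · apply Finset.prod_primes_dvd
    · intro q hq
      exact (hs q (Finset.mem_filter.1 hq).1).prime
    · intro q hq
      exact (Finset.mem_filter.1 hq).2
  · rw [← Finset.prod_filter_mul_prod_filter_not s (fun q => q ∣ r)] at hr
    refine Nat.Coprime.dvd_of_dvd_mul_right ?_ hr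
    apply Nat.Coprime.prod_right
    intro q hq
    obtain ⟨hq1, hq2⟩ := Finset.mem_filter.1 hq
    exact ((hs q hq1).coprime_iff_not_dvd.2 hq2).symm

theorem LDV_main (s : Finset ℕ) (hs : ∀ q ∈ s, q.Prime) (f g : ℕ → ℝ) :
    ∑ r ∈ (∏ x ∈ s, x).divisors, 1 / (r : ℝ) * ∏ q ∈ s, (if q ∣ r then f q else g q) =
      ∏ q ∈ s, (g q + f q / q) := by
  classical
  have h0 : ∏ x ∈ s, x ≠ 0 := Finset.prod_ne_zero_iff.2 fun q hq => (hs q hq).ne_zero
  have h1 : ∏ q ∈ s, (g q + f q / q) = ∏ q ∈ s, (f q / q + g q) :=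
    Finset.prod_congr rfl fun q _ => add_comm _ _
  rw [h1, Finset.prod_add]
  symm
  apply Finset.sum_bij (fun (t : Finset ℕ) (_ : t ∈ s.powerset) => ∏ x ∈ t, x)
  · intro t ht
    rw [Nat.mem_divisors]
    exact ⟨Finset.prod_dvd_prod_of_subset _ _ _ (Finset.mem_powerset.1 ht), h0⟩
  · intro t ht t' ht' h
    rw [Finset.mem_powerset] at ht ht'
    ext q
    constructor
    · intro hq
      rw [← LDV_mem s t' hs ht' q (ht hq), ← h]
      exact Finset.dvd_prod_of_mem _ hq
    · intro hq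
      rw [← LDV_mem s t hs ht q (ht' hq), h]
      exact Finset.dvd_prod_of_mem _ hq
  · intro r hr
    exact ⟨s.filter (fun q => q ∣ r), Finset.mem_powerset.2 (Finset.filter_subset _ _),
      LDV_surj s hs r (Nat.dvd_of_mem_divisors hr)⟩
  · intro t ht
    rw [Finset.mem_powerset] at ht
    have h2 : ∏ q ∈ s, (if q ∣ ∏ x ∈ t, x then f q else g q) =
        (∏ q ∈ t, f q) * ∏ q ∈ s \ t, g q := by
      rw [← Finset.prod_sdiff ht, mul_comm]
      congr 1
      · refine Finset.prod_congr rfl fun q hq => ?_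
        rw [if_pos (Finset.dvd_prod_of_mem (fun x => x) hq)]
      · refine Finset.prod_congr rfl fun q hq => ?_
        obtain ⟨hq1, hq2⟩ := Finset.mem_sdiff.1 hq
        rw [if_neg (fun h => hq2 ((LDV_mem s t hs ht q hq1).1 h))]
    rw [h2, Finset.prod_div_distrib, Nat.cast_prod]
    ring

theorem LDV : LDV_stmt := by
  intro w f g
  unfold PP
  exact LDV_main (pr w) (fun q hq => by
    unfold pr at hq
    exact (Finset.mem_filter.1 hq).2) f g

end Pool.Agent.APL
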